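import Pool.Agent.PST.StmtsET2

/-!
# Squad PST, block ET, row RLI
-/

open scoped BigOperators TensorProduct

noncomputable section

namespace Pool.Agent.PST.ET.H17

open Pool.Agent.PFD.D2 (Cdv FibG)
open Pool.Agent.PFC (Fx BK cj bi tw PS Frm PMid)
open Pool.Agent.PSS (RF)

theorem kpi {R F : Type} [CommRing R] [Field F] (c : Cdv R F) : c.κ c.π = 0 :=
  (c.ker c.π).2 ⟨1, (mul_one _).symm⟩

theorem q_smul {R F Hs H : Type} [CommRing R] [Field F] {c : Cdv R F} [Ring Hs] [Algebra R Hs]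
    [Ring H] [Algebra F H] (f : FibG Hs H c) (r : R) (x : Hs) : f.q (r • x) = c.κ r • f.q x := by
  rw [Algebra.smul_def, map_mul, f.sc, ← Algebra.smul_def]

theorem tor1 (hTOR : TorStmt) {R F D : Type} [CommRing R] [Field F] (c : Cdv R F)
    [AddCommGroup D] [Module R D] [Module.Free R D] (x : D) (hx : c.π • x = 0) : x = 0 := by
  refine (hTOR R F D c).1 1 x ?_
  rw [pow_one]; exact hx

section

variable {R F V H Hs : Type} [CommRing R] [Field F] [CommGroup V] [Fintype V] [DecidableEq V]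
  [Ring H] [Algebra F H] [Ring Hs] [Algebra R Hs] [Module.Free R Hs] (c : Cdv R F)
  (f : FibG Hs H c) (α : V →* H) (lam : H →ₗ[F] F) (σ : V → Hs)

omit [Module.Free R Hs] in
theorem coef (hP : Prj α lam) (hσ : ∀ v, f.q (σ v) = α v) (n : ℕ) (r : V → R) (h : Hs)
    (e : ∑ v, r v • σ v = c.π ^ (n + 1) • h) (u : V) : c.κ (r u) = 0 := by
  have h1 : ∑ v, c.κ (r v) • α v = 0 := by
    have h2 := congrArg f.q e
    rw [map_sum, q_smul, map_pow, kpi, zero_pow (Nat.succ_ne_zero n), zero_smul] at h2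
    rw [← h2]
    refine Finset.sum_congr rfl fun v _ => ?_
    rw [q_smul, hσ]
  have h3 : lam (α u⁻¹ * ∑ v, c.κ (r v) • α v) = 0 := by rw [h1, mul_zero, map_zero]
  rw [Finset.mul_sum, map_sum] at h3
  have h4 : ∀ v, lam (α u⁻¹ * (c.κ (r v) • α v)) = if v = u then c.κ (r v) else 0 := by
    intro v
    rw [mul_smul_comm, ← map_mul, map_smul, hP.del, smul_eq_mul]
    by_cases hv : v = u
    · subst hv; simp
    · have : ¬ (u⁻¹ * v = 1) := by
        intro h0
        exact hv (inv_mul_eq_one.1 h0).symm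
      rw [if_neg this, if_neg hv, mul_zero]
  rw [Finset.sum_congr rfl fun v _ => h4 v, Finset.sum_ite_eq' Finset.univ u,
    if_pos (Finset.mem_univ u)] at h3
  exact h3

theorem indep (hTOR : TorStmt) (hP : Prj α lam) (hσ : ∀ v, f.q (σ v) = α v) :
    ∀ (n : ℕ) (r : V → R) (h : Hs), ∑ v, r v • σ v = c.π ^ n • h →
      ∀ v, ∃ s, r v = c.π ^ n * s := by
  intro n
  induction n with
  | zero => intro r h _ v; exact ⟨r v, by rw [pow_zero, one_mul]⟩
  | succ n ih =>
    intro r h e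
    have h1 : ∀ v, ∃ s, r v = c.π * s := fun v =>
      (c.ker (r v)).1 (coef c f α lam σ hP hσ n r h e v)
    choose s hs using h1
    have h2 : c.π • (∑ v, s v • σ v - c.π ^ n • h) = 0 := by
      rw [smul_sub, Finset.smul_sum, smul_smul, ← pow_succ', ← e, sub_eq_zero]
      refine Finset.sum_congr rfl fun v _ => ?_
      rw [smul_smul, ← hs v]
    have h3 := sub_eq_zero.1 (tor1 hTOR c _ h2)
    intro v
    obtain ⟨t, ht⟩ := ih s h h3 v
    exact ⟨t, by rw [hs v, ht, ← mul_assoc, ← pow_succ']⟩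

end

theorem rli (hTOR : TorStmt) : RliStmt := by
  intro R F V H Hs _ _ _ _ _ _ _ _ _ _ c f α lam σ hP hσ
  have h1 := indep c f α lam σ hTOR hP hσ
  refine ⟨h1, ?_, ?_⟩
  · intro r hr
    funext v
    refine c.sep _ fun n => ?_
    exact h1 n r 0 (by rw [hr, smul_zero]) v
  · intro h hh
    obtain ⟨r, hr⟩ := (Submodule.mem_span_range_iff_exists_fun R).1 hh
    have h2 := h1 1 r h (by rw [hr, pow_one])
    choose s hs using h2
    have h3 : c.π • (∑ v, s v • σ v - h) = 0 := by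
      rw [smul_sub, Finset.smul_sum, ← hr, sub_eq_zero]
      refine Finset.sum_congr rfl fun v _ => ?_
      rw [smul_smul, hs v, pow_one]
    have h4 := sub_eq_zero.1 (tor1 hTOR c _ h3)
    exact (Submodule.mem_span_range_iff_exists_fun R).2 ⟨s, h4⟩

end Pool.Agent.PST.ET.H17
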